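import Pool.Agent.H66.L.S8.Y504.CO.Stm

/-!
# Orbits of homeomorphisms of compact metric spaces: first exits from neighbourhoods of periodic orbits
-/

set_option autoImplicit false

open scoped Topology
open Filter Set Metric

universe u

namespace Pool.Agent.Y600.CO

open Pool.Agent.Y504.CO Pool.Agent.TH80.OMS

variable {X : Type u} [MetricSpace X]

theorem pow_it (f : X ≃ₜ X) (n : ℕ) (x : X) : (f ^ n) x = f^[n] x := by
  induction n generalizing x with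
  | zero => rfl
  | succ n ih => rw [pow_succ, Homeomorph.mul_apply, ih, Function.iterate_succ_apply]

theorem zpow_nat (f : X ≃ₜ X) (n : ℕ) (x : X) : (f ^ (n : ℤ)) x = f^[n] x := by
  rw [zpow_natCast, pow_it]

theorem zadd (f : X ≃ₜ X) (i j : ℤ) (x : X) : (f ^ (i + j)) x = (f ^ i) ((f ^ j) x) := by
  rw [zpow_add, Homeomorph.mul_apply]

theorem zsucc (f : X ≃ₜ X) (i : ℤ) (x : X) : f ((f ^ i) x) = (f ^ (i + 1)) x := by
  rw [add_comm, zadd, zpow_one]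

theorem zz (f : X ≃ₜ X) (x : X) : (f ^ (0 : ℤ)) x = x := by
  rw [zpow_zero]; rfl

theorem zcont (f : X ≃ₜ X) (i : ℤ) : Continuous (fun x => (f ^ i) x) := (f ^ i).continuous

/-- `f ^ (-l)` of an iterate -/
theorem zneg_it (f : X ≃ₜ X) (l n : ℕ) (h : l ≤ n) (x : X) :
    (f ^ (-(l : ℤ))) (f^[n] x) = f^[n - l] x := by
  rw [← zpow_nat f n, ← zadd, ← zpow_nat f (n - l)]
  congr 2
  omega

theorem per_iff (f : X ≃ₜ X) (x : X) : x ∈ Per f ↔ ∃ m : ℕ, 1 ≤ m ∧ (f ^ (m : ℤ)) x = x := by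
  constructor
  · rintro ⟨m, h1, h2⟩
    exact ⟨m, h1, by rw [zpow_nat]; exact h2⟩
  · rintro ⟨m, h1, h2⟩
    exact ⟨m, h1, by rw [zpow_nat] at h2; exact h2⟩

theorem per_mul (f : X ≃ₜ X) (x : X) (m : ℕ) (h : (f ^ (m : ℤ)) x = x) (k : ℕ) :
    (f ^ (((m * k : ℕ) : ℤ))) x = x := by
  induction k with
  | zero => simp only [Nat.mul_zero, Nat.cast_zero]; exact zz f x
  | succ k ih =>
    have : (((m * (k + 1) : ℕ)) : ℤ) = ((m * k : ℕ) : ℤ) + (m : ℤ) := by push_cast; ring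
    rw [this, zadd, h, ih]

/-- limits of points whose orbits are in `closure O` -/
theorem lim_mem (f : X ≃ₜ X) {p : X} {O : Set X}
    (hO : ∀ x : ℤ → X, (∀ i, f (x i) = x (i + 1)) → (∀ i, x i ∈ closure O) → x 0 ∈ orb f p)
    {ι : Type} (U : Filter ι) [NeBot U] (q : ι → X) (y : X) (hq : Tendsto q U (𝓝 y))
    (h : ∀ l : ℤ, ∀ᶠ i in U, (f ^ l) (q i) ∈ closure O) : y ∈ orb f p := by
  have h1 := hO (fun i => (f ^ i) y) (fun i => zsucc f i y) (fun i => by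
    have ht : Tendsto (fun k => (f ^ i) (q k)) U (𝓝 ((f ^ i) y)) :=
      ((zcont f i).tendsto y).comp hq
    exact isClosed_closure.mem_of_tendsto ht (h i))
  have h2 : (f ^ (0 : ℤ)) y = y := zz f y
  rw [h2] at h1
  exact h1

theorem conv_aux [CompactSpace X] (f : X ≃ₜ X) {p : X} {O : Set X}
    (hO : ∀ x : ℤ → X, (∀ i, f (x i) = x (i + 1)) → (∀ i, x i ∈ closure O) → x 0 ∈ orb f p)
    (w : X) (F : Filter ℤ) (hF : ∀ l : ℤ, Tendsto (fun i => l + i) F F)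
    (h : ∀ᶠ i in F, (f ^ i) w ∈ closure O) (O' : Set X) (hO' : IsOpen O') (hp : orb f p ⊆ O') :
    ∀ᶠ i in F, (f ^ i) w ∈ O' := by
  by_contra hc
  have hfr : ∃ᶠ i in F, (f ^ i) w ∉ O' := not_eventually.1 hc
  have hne : NeBot (F ⊓ 𝓟 {i | (f ^ i) w ∉ O'}) := frequently_mem_iff_neBot.1 hfr
  let U : Ultrafilter ℤ := Ultrafilter.of (F ⊓ 𝓟 {i | (f ^ i) w ∉ O'})
  have hU : (U : Filter ℤ) ≤ F ⊓ 𝓟 {i | (f ^ i) w ∉ O'} := Ultrafilter.of_le _
  have hUF : (U : Filter ℤ) ≤ F := hU.trans inf_le_left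
  have hUO : ∀ᶠ i in (U : Filter ℤ), (f ^ i) w ∉ O' := by
    have : (U : Filter ℤ) ≤ 𝓟 {i | (f ^ i) w ∉ O'} := hU.trans inf_le_right
    exact this (mem_principal_self _)
  obtain ⟨y, hy⟩ : ∃ y, Tendsto (fun i : ℤ => (f ^ i) w) U (𝓝 y) := by
    obtain ⟨y, -, hy⟩ := isCompact_univ.ultrafilter_le_nhds (U.map fun i : ℤ => (f ^ i) w)
      (by simp)
    exact ⟨y, hy⟩
  have h1 : y ∉ O' := hO'.isClosed_compl.mem_of_tendsto hy hUO
  apply h1
  apply hp
  refine lim_mem f hO (U : Filter ℤ) _ y hy fun l => ?_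
  have h2 : ∀ᶠ i in F, (f ^ (l + i)) w ∈ closure O := (hF l).eventually h
  filter_upwards [hUF h2] with i hi
  rw [← zadd]; exact hi

theorem omegaTo_of [CompactSpace X] (f : X ≃ₜ X) {p : X} {O : Set X}
    (hO : ∀ x : ℤ → X, (∀ i, f (x i) = x (i + 1)) → (∀ i, x i ∈ closure O) → x 0 ∈ orb f p)
    (s : X) (h : ∀ᶠ i : ℕ in atTop, f^[i] s ∈ closure O) : OmegaTo f s p := by
  intro O' hO' hp
  have h1 : ∀ᶠ i : ℤ in atTop, (f ^ i) s ∈ closure O := by
    rw [eventually_atTop] at h ⊢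
    obtain ⟨a, ha⟩ := h
    refine ⟨a, fun b hb => ?_⟩
    have := ha b.toNat (by omega)
    rw [← zpow_nat, Int.toNat_of_nonneg (by omega)] at this
    exact this
  have h2 := conv_aux f hO s atTop (fun l => tendsto_atTop_add_const_left _ _ tendsto_id) h1 O' hO' hp
  have h3 := tendsto_natCast_atTop_atTop.eventually h2
  filter_upwards [h3] with i hi
  rw [← zpow_nat]; exact hi

theorem alphaTo_of [CompactSpace X] (f : X ≃ₜ X) {p : X} {O : Set X}
    (hO : ∀ x : ℤ → X, (∀ i, f (x i) = x (i + 1)) → (∀ i, x i ∈ closure O) → x 0 ∈ orb f p)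
    (w : X) (h : ∀ l : ℕ, 1 ≤ l → (f ^ (-(l : ℤ))) w ∈ closure O) : AlphaTo f w p := by
  refine ⟨fun i => (f ^ i) w, fun i => zsucc f i w, zz f w, fun O' hO' hp => ?_⟩
  refine conv_aux f hO w atBot (fun l => tendsto_atBot_add_const_left _ _ tendsto_id) ?_ O' hO' hp
  rw [eventually_atBot]
  refine ⟨-1, fun b hb => ?_⟩
  have := h (-b).toNat (by omega)
  rw [Int.toNat_of_nonneg (by omega), neg_neg] at this
  exact this

/-- a periodic point with backward orbit in `closure O` -/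
theorem per_bwd (f : X ≃ₜ X) {p : X} {O : Set X}
    (hO : ∀ x : ℤ → X, (∀ i, f (x i) = x (i + 1)) → (∀ i, x i ∈ closure O) → x 0 ∈ orb f p)
    (w : X) (hw : w ∈ Per f) (h : ∀ l : ℕ, 1 ≤ l → (f ^ (-(l : ℤ))) w ∈ closure O) :
    w ∈ orb f p := by
  obtain ⟨m, hm, hmw⟩ := (per_iff f w).1 hw
  have h1 := hO (fun i => (f ^ i) w) (fun i => zsucc f i w) (fun i => by
    have hk : (f ^ i) w = (f ^ (i - ((m * (i.toNat + 1) : ℕ) : ℤ))) w := by
      conv_rhs => rw [← per_mul f w m hmw (i.toNat + 1)]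
      rw [← zadd]; congr 2; ring
    have hneg : i - ((m * (i.toNat + 1) : ℕ) : ℤ) ≤ -1 := by
      push_cast
      have h2 : (i.toNat : ℤ) ≥ i := Int.self_le_toNat i
      have h3 : (1 : ℤ) ≤ m := by exact_mod_cast hm
      have h4 : (0 : ℤ) ≤ i.toNat := Int.natCast_nonneg _
      nlinarith
    have h5 := h (-(i - ((m * (i.toNat + 1) : ℕ) : ℤ))).toNat (by omega)
    rw [Int.toNat_of_nonneg (by omega), neg_neg] at h5
    show (f ^ i) w ∈ closure O
    rw [hk]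
    exact h5)
  have h2 : (f ^ (0 : ℤ)) w = w := zz f w
  rw [h2] at h1
  exact h1

/-- a periodic point with forward orbit in `closure O` -/
theorem per_fwd (f : X ≃ₜ X) {p : X} {O : Set X}
    (hO : ∀ x : ℤ → X, (∀ i, f (x i) = x (i + 1)) → (∀ i, x i ∈ closure O) → x 0 ∈ orb f p)
    (w : X) (hw : w ∈ Per f) (h : ∀ l : ℕ, 1 ≤ l → f^[l] w ∈ closure O) :
    w ∈ orb f p := by
  obtain ⟨m, hm, hmw⟩ := (per_iff f w).1 hw
  refine per_bwd f hO w hw fun l hl => ?_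
  have hk : (f ^ (-(l : ℤ))) w = (f ^ (-(l : ℤ) + ((m * (l + 1) : ℕ) : ℤ))) w := by
    rw [zadd, per_mul f w m hmw (l + 1)]
  have hpos : 1 ≤ -(l : ℤ) + ((m * (l + 1) : ℕ) : ℤ) := by
    push_cast
    have h3 : (1 : ℤ) ≤ m := by exact_mod_cast hm
    have h4 : (0 : ℤ) ≤ l := Int.natCast_nonneg _
    nlinarith
  have h5 := h (-(l : ℤ) + ((m * (l + 1) : ℕ) : ℤ)).toNat (by omega)
  rw [← zpow_nat, Int.toNat_of_nonneg (by omega)] at h5
  rw [hk]; exact h5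

omit [MetricSpace X] in
theorem orb_self (f : X → X) (p : X) : p ∈ orb f p := ⟨0, rfl⟩

omit [MetricSpace X] in
theorem orb_it (f : X → X) (p : X) (i : ℕ) : f^[i] p ∈ orb f p := ⟨i, rfl⟩

/-- orbits of periodic points consist of periodic points -/
theorem orb_per (f : X ≃ₜ X) {p : X} (hp : p ∈ Per f) : orb f p ⊆ Per f := by
  rintro _ ⟨i, rfl⟩
  obtain ⟨m, h1, h2⟩ := hp
  refine ⟨m, h1, ?_⟩
  show (⇑f)^[m] ((⇑f)^[i] p) = (⇑f)^[i] p
  rw [← Function.iterate_add_apply, add_comm, Function.iterate_add_apply, h2]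

theorem orb_finite (f : X ≃ₜ X) {p : X} (hp : p ∈ Per f) : (orb f p).Finite := by
  obtain ⟨m, h1, h2⟩ := hp
  have h2' : Function.IsPeriodicPt f m p := h2
  refine ((Finset.range m).finite_toSet.image fun i => f^[i] p).subset ?_
  rintro _ ⟨i, rfl⟩
  refine ⟨i % m, ?_, ?_⟩
  · simp only [Finset.coe_range, mem_Iio]; exact Nat.mod_lt _ h1
  · show (⇑f)^[i % m] p = (⇑f)^[i] p
    exact h2'.iterate_mod_apply i

/-- First exits. -/
theorem exit [CompactSpace X] (f : X ≃ₜ X) (O : Set X) (hO : IsOpen O) (a : ℕ → X) (b c : ℕ → ℕ)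
    (hbc : ∀ᶠ k in atTop, b k < c k) (hout : ∀ᶠ k in atTop, f^[c k] (a k) ∉ O)
    (hin : ∀ j : ℕ, 1 ≤ j → ∀ᶠ k in atTop, f^[b k + j] (a k) ∈ O) :
    ∃ (e φ : ℕ → ℕ) (w : X), StrictMono φ ∧
      (∀ᶠ k in atTop, b k < e k ∧ e k ≤ c k ∧ f^[e k] (a k) ∉ O ∧
        ∀ i, b k < i → i < e k → f^[i] (a k) ∈ O) ∧
      (∀ l : ℕ, ∀ᶠ k in atTop, b k + l < e k) ∧
      Tendsto (fun k => f^[e (φ k)] (a (φ k))) atTop (𝓝 w) ∧ w ∉ O ∧
      ∀ l : ℕ, 1 ≤ l → (f ^ (-(l : ℤ))) w ∈ closure O := by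
  classical
  let e : ℕ → ℕ := fun k => if h : ∃ e, b k < e ∧ f^[e] (a k) ∉ O then Nat.find h else 0
  have he : ∀ᶠ k in atTop, b k < e k ∧ e k ≤ c k ∧ f^[e k] (a k) ∉ O ∧
        ∀ i, b k < i → i < e k → f^[i] (a k) ∈ O := by
    filter_upwards [hbc, hout] with k h1 h2
    have hex : ∃ e, b k < e ∧ f^[e] (a k) ∉ O := ⟨c k, h1, h2⟩
    have hek : e k = Nat.find hex := dif_pos hex
    rw [hek]
    refine ⟨(Nat.find_spec hex).1, Nat.find_min' hex ⟨h1, h2⟩, (Nat.find_spec hex).2, ?_⟩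
    intro i hi hi2
    by_contra hc
    exact Nat.find_min hex hi2 ⟨hi, hc⟩
  have hinf : ∀ l : ℕ, ∀ᶠ k in atTop, b k + l < e k := by
    intro l
    have h1 : ∀ᶠ k in atTop, ∀ j ∈ Finset.Icc 1 l, f^[b k + j] (a k) ∈ O :=
      (Filter.eventually_all_finset _).2 fun j hj => hin j (Finset.mem_Icc.1 hj).1
    filter_upwards [h1, he] with k h2 h3
    by_contra hc
    have h4 := h2 (e k - b k) (Finset.mem_Icc.2 ⟨by omega, by omega⟩)
    rw [Nat.add_sub_cancel' (by omega)] at h4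
    exact h3.2.2.1 h4
  obtain ⟨w, φ, hφ, hw⟩ := CompactSpace.tendsto_subseq (fun k => f^[e k] (a k))
  refine ⟨e, φ, w, hφ, he, hinf, hw, ?_, fun l hl => ?_⟩
  · refine hO.isClosed_compl.mem_of_tendsto hw ?_
    filter_upwards [hφ.tendsto_atTop.eventually he] with k hk
    exact hk.2.2.1
  · have ht : Tendsto (fun k => (f ^ (-(l : ℤ))) (f^[e (φ k)] (a (φ k)))) atTop
        (𝓝 ((f ^ (-(l : ℤ))) w)) := ((zcont f _).tendsto w).comp hw
    refine isClosed_closure.mem_of_tendsto ht ?_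
    filter_upwards [hφ.tendsto_atTop.eventually he, hφ.tendsto_atTop.eventually (hinf l)] with k hk hk2
    apply subset_closure
    rw [zneg_it f l _ (by omega)]
    exact hk.2.2.2 _ (by omega) (by omega)

/-- limits of two sequences which agree infinitely often -/
theorem ne_eventually {ι : Type} {F : Filter ι} {u v : ι → X} {a b : X} (hab : a ≠ b)
    (hu : Tendsto u F (𝓝 a)) (hv : Tendsto v F (𝓝 b)) : ∀ᶠ i in F, u i ≠ v i := by
  have h : Tendsto (fun i => (u i, v i)) F (𝓝 (a, b)) := hu.prodMk_nhds hv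
  have h2 : {q : X × X | q.1 ≠ q.2} ∈ 𝓝 (a, b) := by
    have : IsOpen {q : X × X | q.1 ≠ q.2} := isOpen_ne_fun continuous_fst continuous_snd
    exact this.mem_nhds hab
  exact h.eventually h2

end Pool.Agent.Y600.CO
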